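import Pool.Agent.MP_aed30a_nt.H54.Final

/-! The number `g_n(p^e)` of irreducible subrings of index `p^e` of the `n`-th power of the
`p`-adic integers is not always a polynomial in `p`. -/

namespace Pool.Agent.Results.MP_aed30a_nt.NotPolynomial
open Pool.Agent.MP_aed30a_nt.H54

theorem result :
    ∃ n e : ℕ, 1 ≤ n ∧ n ≤ e ∧ e ≤ n + 17 ∧
      (∀ (p : ℕ) [Fact p.Prime],
        {Λ : Subring (Fin n → ℤ_[p]) | Λ.toAddSubgroup.index = p ^ e ∧
          ∀ x ∈ Λ, ∀ i j, (p : ℤ_[p]) ∣ x i - x j}.Finite) ∧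
      ¬ ∃ P : Polynomial ℚ, ∀ (p : ℕ) [Fact p.Prime],
        ({Λ : Subring (Fin n → ℤ_[p]) | Λ.toAddSubgroup.index = p ^ e ∧
          ∀ x ∈ Λ, ∀ i j, (p : ℤ_[p]) ∣ x i - x j}.ncard : ℚ) = P.eval (p : ℚ) := by
  by_contra hcon
  refine not_poly (poly_Rc fun a f h1 h18 => ?_)
  by_contra hP
  refine hcon ⟨a + 1, a + f, by omega, by omega, by omega, fun p _ => ?_, hP⟩
  obtain ⟨e⟩ := irr_equiv (p := p) (n := a) h18
  exact Finite.of_equiv _ e.symm

end Pool.Agent.Results.MP_aed30a_nt.NotPolynomial
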